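import Mathlib
import Pool.Agent.W475.BG.Stm
import Pool.Agent.W475.BG.Cj
import Pool.Agent.W190.BH.Tot

set_option autoImplicit false

/-!
# Task TOT of project BG
-/

namespace Pool.Agent.W202.BG.TOT

open Complex MeasureTheory Filter Topology Metric
open Pool.Agent.W475.BG
open Pool.Agent.W475.BH (nz)
open Pool.Agent.W190.BH (LB UB Z mem_Z nz_eq nz_mono nz_union nn SSS nn_eq nn_nonneg divisor_eq
  integral_abs_cos LB_rec LB_scale LB_S UB_n LB_of_tendsto tendsto_of_LB_UB GB)
open scoped ComplexConjugate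

section

variable {f : ℂ → ℂ}

/-- The counting function without the zero at the origin. -/
noncomputable def nn0 (hf : Differentiable ℂ f) (R : ℝ) : ℝ :=
  ∑ z ∈ Z hf R, (if z = 0 then 0 else (analyticOrderNatAt f z : ℝ))

theorem nn0_le (hf : Differentiable ℂ f) (R : ℝ) : nn0 hf R ≤ nn hf R := by
  unfold nn0 nn
  apply Finset.sum_le_sum
  intro z _
  split_ifs
  · positivity
  · exact le_rfl

theorem nn_le (hf : Differentiable ℂ f) (R : ℝ) :
    nn hf R ≤ nn0 hf R + (analyticOrderNatAt f 0 : ℝ) := by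
  unfold nn0 nn
  have h : ∀ z ∈ Z hf R, (analyticOrderNatAt f z : ℝ) =
      (if z = 0 then 0 else (analyticOrderNatAt f z : ℝ)) +
        (if z = 0 then (analyticOrderNatAt f z : ℝ) else 0) := by
    intro z _
    split_ifs <;> simp
  rw [Finset.sum_congr rfl h, Finset.sum_add_distrib,
    Finset.sum_ite_eq' (Z hf R) 0 (fun z => (analyticOrderNatAt f z : ℝ))]
  gcongr
  split_ifs
  · exact le_rfl
  · positivity

theorem log_nonneg' {R : ℝ} {z : ℂ} (h : ‖z‖ ≤ R) : 0 ≤ Real.log (R * ‖z‖⁻¹) := by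
  rcases eq_or_ne z 0 with rfl | hz
  · simp
  · have h1 : 0 < ‖z‖ := norm_pos_iff.2 hz
    apply Real.log_nonneg
    rw [← div_eq_mul_inv, le_div_iff₀ h1]
    linarith

theorem SSS_nonneg' (hf : Differentiable ℂ f) (R : ℝ) : 0 ≤ SSS hf R := by
  unfold SSS
  apply Finset.sum_nonneg
  intro z hz
  have := log_nonneg' ((mem_Z hf R z).1 hz).1
  positivity

theorem SSS_rec' (hf : Differentiable ℂ f) {q R : ℝ} (hq : 1 < q) (hR : 0 < R) :
    Real.log q * nn0 hf R + SSS hf R ≤ SSS hf (q * R) := by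
  have hsub : Z hf R ⊆ Z hf (q * R) := by
    intro z hz
    rw [mem_Z] at hz ⊢
    refine ⟨hz.1.trans ?_, hz.2⟩
    nlinarith
  have h1 : ∑ z ∈ Z hf R, (analyticOrderNatAt f z : ℝ) * Real.log (q * R * ‖z‖⁻¹) ≤
      SSS hf (q * R) := by
    unfold SSS
    apply Finset.sum_le_sum_of_subset_of_nonneg hsub
    intro z hz _
    have := log_nonneg' ((mem_Z hf _ z).1 hz).1
    positivity
  refine le_trans (le_of_eq ?_) h1
  unfold nn0 SSS
  rw [Finset.mul_sum, ← Finset.sum_add_distrib]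
  apply Finset.sum_congr rfl
  intro z hz
  split_ifs with h0
  · rw [h0]; simp
  · have h1 : 0 < ‖z‖ := norm_pos_iff.2 h0
    have : q * R * ‖z‖⁻¹ = q * (R * ‖z‖⁻¹) := by ring
    rw [this, Real.log_mul (x := q) (by linarith) (by positivity)]
    ring

theorem jensen' (hf : Differentiable ℂ f) {R : ℝ} (hR : 0 < R) :
    Real.circleAverage (fun z => Real.log ‖f z‖) 0 R = SSS hf R +
      (analyticOrderNatAt f 0 : ℝ) * Real.log R + Real.log ‖meromorphicTrailingCoeffAt f 0‖ := by
  have hA : AnalyticOnNhd ℂ f (closedBall 0 |R|) := fun x _ => hf.analyticAt x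
  rw [hA.meromorphicOn.circleAverage_log_norm hR.ne', abs_of_pos hR,
    divisor_eq hf R (by simpa using hR.le)]
  congr 1
  congr 1
  unfold SSS
  rw [finsum_eq_sum_of_support_subset (s := Z hf R)]
  · apply Finset.sum_congr rfl
    intro z hz
    have h2 := ((mem_Z hf _ z).1 hz).1
    rw [divisor_eq hf R (by simpa using h2)]
    simp
  · intro z hz
    rw [Function.mem_support] at hz
    have hz1 : MeromorphicOn.divisor f (closedBall 0 R) z ≠ 0 := by
      intro h; apply hz; rw [h]; simp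
    have hzb : z ∈ closedBall (0 : ℂ) R := by
      by_contra h
      exact hz1 (Function.locallyFinsuppWithin.apply_eq_zero_of_notMem _ h)
    rw [divisor_eq hf R hzb] at hz1
    rw [Finset.mem_coe, mem_Z]
    exact ⟨by simpa using hzb, by exact_mod_cast hz1⟩

theorem circle_bound' (hf : Differentiable ℂ f) {d C : ℝ} (hd : 0 ≤ d) (hC : 0 < C)
    (hb : ∀ z : ℂ, ‖f z‖ ≤ Real.exp (d * |z.re| / 2 * Real.log (2 + ‖z‖) + C * (1 + ‖z‖))) {R : ℝ}
    (hR : 0 < R) :
    Real.circleAverage (fun z => Real.log ‖f z‖) 0 R ≤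
      d * (R / Real.pi * Real.log (2 + R)) + C * (1 + R) := by
  have hpos : ∀ z : ℂ, 0 ≤ d * |z.re| / 2 * Real.log (2 + ‖z‖) + C * (1 + ‖z‖) := by
    intro z
    have : 0 ≤ Real.log (2 + ‖z‖) := Real.log_nonneg (by linarith [norm_nonneg z])
    positivity
  have h1 : CircleIntegrable (fun z => Real.log ‖f z‖) 0 R := by
    have hA : AnalyticOnNhd ℂ f (sphere 0 |R|) := fun x _ => hf.analyticAt x
    exact hA.meromorphicOn.circleIntegrable_log_norm
  have hcont : Continuous (fun z : ℂ => d * |z.re| / 2 * Real.log (2 + ‖z‖) + C * (1 + ‖z‖)) := by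
    refine Continuous.add (Continuous.mul (by fun_prop) (Continuous.log (by fun_prop) ?_))
      (by fun_prop)
    intro z
    have := norm_nonneg z
    linarith
  have h2 : CircleIntegrable
      (fun z : ℂ => d * |z.re| / 2 * Real.log (2 + ‖z‖) + C * (1 + ‖z‖)) 0 R :=
    hcont.continuousOn.circleIntegrable hR.le
  refine (Real.circleAverage_mono h1 h2 ?_).trans ?_
  · intro z _
    by_cases hz : f z = 0
    · simp only [hz, norm_zero, Real.log_zero]
      exact hpos z
    · rw [Real.log_le_iff_le_exp (norm_pos_iff.2 hz)]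
      exact hb z
  · rw [Real.circleAverage_def]
    have hint : ∫ θ in (0 : ℝ)..(2 * Real.pi), (fun z : ℂ => d * |z.re| / 2 *
        Real.log (2 + ‖z‖) + C * (1 + ‖z‖)) (circleMap 0 R θ) = ∫ θ in (0 : ℝ)..(2 * Real.pi),
        (d * R / 2 * Real.log (2 + R) * |Real.cos θ| + C * (1 + R)) := by
      apply intervalIntegral.integral_congr
      intro θ _
      have hn : ‖circleMap 0 R θ‖ = R := by
        rw [norm_circleMap_zero, abs_of_pos hR]
      have hre : (circleMap 0 R θ).re = R * Real.cos θ := by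
        rw [circleMap_zero]
        simp [Complex.exp_re]
      simp only [hn, hre, abs_mul, abs_of_pos hR]
      ring
    rw [hint, intervalIntegral.integral_add, intervalIntegral.integral_const_mul, integral_abs_cos,
      intervalIntegral.integral_const, smul_eq_mul, smul_eq_mul]
    · have hpi := Real.pi_pos
      apply le_of_eq
      field_simp
      ring
    · exact ((Real.continuous_cos.abs).const_mul _).intervalIntegrable _ _
    · exact continuous_const.intervalIntegrable _ _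

theorem UB_SSS' (hf : Differentiable ℂ f) {d C : ℝ} (hd : 0 ≤ d) (hC : 0 < C)
    (hb : ∀ z : ℂ, ‖f z‖ ≤
      Real.exp (d * |z.re| / 2 * Real.log (2 + ‖z‖) + C * (1 + ‖z‖))) :
    UB (SSS hf) (d / Real.pi) := by
  intro ε hε
  set c : ℝ := |Real.log ‖meromorphicTrailingCoeffAt f 0‖| with hc
  have hlog : Tendsto (fun R : ℝ => Real.log R) atTop atTop := Real.tendsto_log_atTop
  filter_upwards [eventually_ge_atTop (1 : ℝ),
    hlog.eventually_ge_atTop ((2 * C + c + d) / ε)] with R hR h1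
  have hR0 : 0 < R := by linarith
  have hj := jensen' hf hR0
  have hcb := circle_bound' hf hd hC hb hR0
  have hm0 : 0 ≤ (analyticOrderNatAt f 0 : ℝ) * Real.log R :=
    mul_nonneg (Nat.cast_nonneg _) (Real.log_nonneg hR)
  have h2 : Real.log (2 + R) ≤ Real.log R + 2 / R := by
    have : Real.log ((2 + R) / R) ≤ (2 + R) / R - 1 := Real.log_le_sub_one_of_pos (by positivity)
    rw [Real.log_div (by positivity) hR0.ne'] at this
    have e : (2 + R) / R - 1 = 2 / R := by field_simp; ring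
    linarith
  have hpi := Real.pi_gt_three
  have h3 : R / Real.pi * Real.log (2 + R) ≤ 1 / Real.pi * (R * Real.log R) + 1 := by
    calc R / Real.pi * Real.log (2 + R) ≤ R / Real.pi * (Real.log R + 2 / R) := by gcongr
      _ = 1 / Real.pi * (R * Real.log R) + 2 / Real.pi := by field_simp
      _ ≤ _ := by
        have : 2 / Real.pi ≤ 1 := by rw [div_le_one (by linarith)]; linarith
        linarith
  have h3' : d * (R / Real.pi * Real.log (2 + R)) ≤ d / Real.pi * (R * Real.log R) + d := by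
    calc d * (R / Real.pi * Real.log (2 + R)) ≤ d * (1 / Real.pi * (R * Real.log R) + 1) := by
          gcongr
      _ = _ := by ring
  have h4 : (2 * C + c + d) ≤ ε * Real.log R := by
    rw [div_le_iff₀ hε] at h1; linarith
  have hc0 : 0 ≤ c := abs_nonneg _
  have h5 : C * (1 + R) + c + d ≤ ε * (R * Real.log R) := by
    calc C * (1 + R) + c + d ≤ (2 * C + c + d) * R := by nlinarith
      _ ≤ (ε * Real.log R) * R := by gcongr
      _ = _ := by ring
  have h6 : -c ≤ Real.log ‖meromorphicTrailingCoeffAt f 0‖ := neg_abs_le _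
  have h7 : (d / Real.pi + ε) * (R * Real.log R) = d / Real.pi * (R * Real.log R) +
    ε * (R * Real.log R) := by ring
  linarith

/-- The zeros in an upper dyadic block. -/
noncomputable def BU (f : ℂ → ℂ) (κ T : ℝ) : ℝ :=
  (nz f {z | |z.re| ≤ κ * Real.log T ∧ T < z.im ∧ z.im ≤ 2 * T} : ℝ)

/-- The zeros in a lower dyadic block. -/
noncomputable def BL (f : ℂ → ℂ) (κ T : ℝ) : ℝ :=
  (nz f {z | |z.re| ≤ κ * Real.log T ∧ T < -z.im ∧ -z.im ≤ 2 * T} : ℝ)

theorem GB_rec' (hf : Differentiable ℂ f) {κ T : ℝ} (hκ : 0 < κ)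
    (hT : 1 ≤ T) : (BU f κ T + BL f κ T) + GB f κ T ≤ GB f κ (2 * T) := by
  have hlT : 0 ≤ Real.log T := Real.log_nonneg hT
  have hl2 : Real.log T ≤ Real.log (2 * T) := Real.log_le_log (by linarith) (by linarith)
  have hbd : ∀ z ∈ {z : ℂ | |z.re| ≤ κ * Real.log (2 * T) ∧ |z.im| ≤ 2 * T},
      ‖z‖ ≤ κ * Real.log (2 * T) + 2 * T := by
    rintro z ⟨h1, h2⟩
    exact (Complex.norm_le_abs_re_add_abs_im z).trans (add_le_add h1 h2)
  set A1 : Set ℂ := {z | |z.re| ≤ κ * Real.log T ∧ T < z.im ∧ z.im ≤ 2 * T} with hA1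
  set A2 : Set ℂ := {z | |z.re| ≤ κ * Real.log T ∧ T < -z.im ∧ -z.im ≤ 2 * T} with hA2
  set A0 : Set ℂ := {z | |z.re| ≤ κ * Real.log T ∧ |z.im| ≤ T} with hA0
  have hκl : κ * Real.log T ≤ κ * Real.log (2 * T) := by gcongr
  have s1 : A1 ⊆ {z : ℂ | |z.re| ≤ κ * Real.log (2 * T) ∧ |z.im| ≤ 2 * T} := by
    rintro z ⟨a1, a3, a4⟩
    refine ⟨a1.trans hκl, ?_⟩
    rw [abs_le]; constructor <;> linarith
  have s2 : A2 ⊆ {z : ℂ | |z.re| ≤ κ * Real.log (2 * T) ∧ |z.im| ≤ 2 * T} := by
    rintro z ⟨a1, a3, a4⟩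
    refine ⟨a1.trans hκl, ?_⟩
    rw [abs_le]; constructor <;> linarith
  have s0 : A0 ⊆ {z : ℂ | |z.re| ≤ κ * Real.log (2 * T) ∧ |z.im| ≤ 2 * T} := by
    rintro z ⟨a1, a2⟩
    exact ⟨a1.trans hκl, a2.trans (by linarith)⟩
  have d12 : Disjoint A1 A2 := by
    rw [Set.disjoint_left]
    rintro z ⟨_, a3, _⟩ ⟨_, b3, _⟩
    linarith
  have d0 : Disjoint (A1 ∪ A2) A0 := by
    rw [Set.disjoint_left]
    rintro z (⟨_, a3, _⟩ | ⟨_, b3, _⟩) ⟨_, c2⟩
    · rw [abs_le] at c2; linarith
    · rw [abs_le] at c2; linarith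
  have hu1 := nz_union hf _ (fun z hz => hbd z (s1 hz)) (fun z hz => hbd z (s2 hz)) d12
  have hu2 := nz_union hf (κ * Real.log (2 * T) + 2 * T) (A := A1 ∪ A2) (B := A0) (by
    rintro z (hz | hz)
    · exact hbd z (s1 hz)
    · exact hbd z (s2 hz)) (fun z hz => hbd z (s0 hz)) d0
  have hm := nz_mono hf _ hbd (A := (A1 ∪ A2) ∪ A0)
    (Set.union_subset (Set.union_subset s1 s2) s0)
  rw [hu2, hu1] at hm
  have hm2 : ((nz f A1 + nz f A2 + nz f A0 : ℕ) : ℝ) ≤ GB f κ (2 * T) := by
    unfold GB; exact_mod_cast hm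
  push_cast at hm2
  have e1 : BU f κ T = (nz f A1 : ℝ) := rfl
  have e3 : BL f κ T = (nz f A2 : ℝ) := rfl
  have e2 : GB f κ T = (nz f A0 : ℝ) := rfl
  rw [e1, e2, e3]
  linarith

theorem LB_GB' (hf : Differentiable ℂ f) {κ a : ℝ} (hκ : 0 < κ)
    (hB : LB (BU f κ) a) (hB' : LB (BL f κ) a) : LB (GB f κ) (2 * a) := by
  have hH : LB (fun T => BU f κ T + BL f κ T) (2 * a) := by
    intro ε hε
    filter_upwards [hB (ε / 2) (by linarith), hB' (ε / 2) (by linarith)] with R hR hR'
    have e : (2 * a - ε) * (R * Real.log R) =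
      (a - ε / 2) * (R * Real.log R) + (a - ε / 2) * (R * Real.log R) := by ring
    rw [e]; linarith
  have := LB_rec (F := GB f κ) (H := fun T => BU f κ T + BL f κ T) (q := 2) one_lt_two
    (Eventually.of_forall fun R => by unfold GB; positivity) ?_ hH
  · have e : (2 * a) / (2 - 1) = 2 * a := by norm_num
    rwa [e] at this
  · filter_upwards [eventually_ge_atTop (2 : ℝ)] with R hR
    have := GB_rec' hf hκ (T := R / 2) (by linarith)
    rwa [mul_div_cancel₀ _ (two_ne_zero)] at this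

theorem LB_nn' (hf : Differentiable ℂ f) {κ a : ℝ} (hG : LB (GB f κ) a) :
    LB (nn hf) a := by
  refine LB_scale hG ?_
  intro q hq
  have hq0 : 0 < q := by linarith
  have hqi : 0 < 1 - 1 / q := by
    have : 1 / q < 1 := by rw [div_lt_one hq0]; exact hq
    linarith
  have h1 : ∀ᶠ R : ℝ in atTop, |κ| * Real.log R ≤ (1 - 1 / q) * R := by
    have := (Real.isLittleO_log_id_atTop).const_mul_left |κ|
    have h2 := this.bound hqi
    filter_upwards [h2, eventually_ge_atTop (1 : ℝ)] with R h3 hR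
    have h4 : |κ| * Real.log R ≤ ‖|κ| * Real.log R‖ := le_abs_self _
    have h5 : ‖id R‖ = R := by simp [abs_of_nonneg (by linarith : (0:ℝ) ≤ R)]
    rw [h5] at h3
    linarith
  filter_upwards [h1, eventually_ge_atTop q] with R h2 hR
  have hR0 : 0 < R := by linarith
  rw [← nn_eq]
  unfold GB
  have hm := nz_mono hf R (A := {z | |z.re| ≤ κ * Real.log (R / q) ∧ |z.im| ≤ R / q})
    (B := {z | ‖z‖ ≤ R}) (fun z hz => hz) ?_
  · exact_mod_cast hm
  · rintro z ⟨a1, a2⟩
    have h3 : κ * Real.log (R / q) ≤ |κ| * Real.log R := by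
      have hlq : 0 ≤ Real.log (R / q) := Real.log_nonneg (by rw [le_div_iff₀ hq0]; linarith)
      calc κ * Real.log (R / q) ≤ |κ| * Real.log (R / q) := by
            gcongr; exact le_abs_self κ
        _ ≤ |κ| * Real.log R := by
          gcongr
          exact div_le_self hR0.le hq.le
    show ‖z‖ ≤ R
    calc ‖z‖ ≤ |z.re| + |z.im| := Complex.norm_le_abs_re_add_abs_im z
      _ ≤ κ * Real.log (R / q) + R / q := add_le_add a1 a2
      _ ≤ (1 - 1 / q) * R + R / q := by linarith
      _ = R := by field_simp; ring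

/-- Constants are negligible. -/
theorem const_small (m : ℝ) {ε : ℝ} (hε : 0 < ε) :
    ∀ᶠ R : ℝ in atTop, m ≤ ε * (R * Real.log R) := by
  filter_upwards [eventually_ge_atTop (1 : ℝ),
    Real.tendsto_log_atTop.eventually_ge_atTop (|m| / ε)] with R hR h1
  rw [div_le_iff₀ hε] at h1
  have h2 : |m| ≤ ε * (R * Real.log R) := by
    calc |m| ≤ Real.log R * ε := h1
      _ ≤ Real.log R * ε * R := by
        have : 0 ≤ Real.log R * ε := (abs_nonneg m).trans h1
        exact le_mul_of_one_le_right this hR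
      _ = _ := by ring
  exact (le_abs_self m).trans h2

end

/-- Task TOT. -/
theorem tot (D : Dat) (hD : Ok D) (hY : S_SYM D) (hG : S_GRW D) (h1 : S_CNA D)
    (h2 : S_CNA (cj D)) : S_TOT D := by
  intro κ hκ
  obtain ⟨hf, -, -⟩ := hY κ hκ
  obtain ⟨C, hC, hb⟩ := hG κ hκ
  have hd0 : (0 : ℝ) ≤ D.d := Nat.cast_nonneg _
  have hκ' : 0 < (D.d : ℝ) * κ + 1 := by positivity
  have hpi := Real.pi_pos
  have hBU : LB (BU (XK D κ) (D.d * κ + 1)) (D.d / (2 * Real.pi)) := LB_of_tendsto (h1 κ hκ)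
  have hBL : LB (BL (XK D κ) (D.d * κ + 1)) (D.d / (2 * Real.pi)) := by
    apply LB_of_tendsto
    refine (h2 κ hκ).congr fun T => ?_
    unfold BL
    rw [← nz_cj hY hκ]
    congr 3
    ext z
    simp [cj]
  have e2 : 2 * ((D.d : ℝ) / (2 * Real.pi)) = D.d / Real.pi := by field_simp
  have hGB := LB_GB' hf hκ' hBU hBL
  rw [e2] at hGB
  have hn := LB_nn' hf hGB
  set m0 : ℝ := (analyticOrderNatAt (XK D κ) 0 : ℝ) with hm0
  have hn0 : LB (nn0 hf) (D.d / Real.pi) := by
    intro ε hε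
    filter_upwards [hn (ε / 2) (by linarith), const_small m0 (half_pos hε)] with R h3 h4
    have h5 := nn_le hf R
    have e : ((D.d : ℝ) / Real.pi - ε) * (R * Real.log R) =
      (D.d / Real.pi - ε / 2) * (R * Real.log R) - ε / 2 * (R * Real.log R) := by ring
    rw [e]
    linarith
  have hrec : ∀ q : ℝ, 1 < q → ∀ᶠ R : ℝ in atTop,
      Real.log q * nn0 hf R + SSS hf R ≤ SSS hf (q * R) := by
    intro q hq
    filter_upwards [eventually_gt_atTop (0 : ℝ)] with R hR
    exact SSS_rec' hf hq hR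
  have hLS : LB (SSS hf) (D.d / Real.pi) :=
    LB_S (by positivity) (Eventually.of_forall fun R => SSS_nonneg' hf R) hrec hn0
  have hUS := UB_SSS' hf hd0 hC hb
  have hUn0 := UB_n (by positivity) hrec hLS hUS
  have hUn : UB (nn hf) (D.d / Real.pi) := by
    intro ε hε
    filter_upwards [hUn0 (ε / 2) (by linarith), const_small m0 (half_pos hε)] with R h3 h4
    have h5 := nn_le hf R
    have e : ((D.d : ℝ) / Real.pi + ε) * (R * Real.log R) =
      (D.d / Real.pi + ε / 2) * (R * Real.log R) + ε / 2 * (R * Real.log R) := by ring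
    rw [e]
    linarith
  have := tendsto_of_LB_UB hn hUn
  refine this.congr (fun R => ?_)
  rw [nn_eq hf]

end Pool.Agent.W202.BG.TOT
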